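import Mathlib

/-! Real points of Weil restrictions of elliptic curves, and a family of curves. -/

namespace Pool.Agent.P.MP_e5b57f_nt

open Polynomial

/-- The curve `y ^ 2 = x * (x - α) * (x - β)`. -/
def leg {K : Type} [Field K] (α β : K) : WeierstrassCurve K := ⟨0, -(α + β), 0, α * β, 0⟩

/-- The real points of the Weil restriction of `W`: one real point (affine or at infinity) on each
real conjugate of `W`, inside a product of one point compactifications of the plane. -/
def realPts {K : Type} [Field K] (W : WeierstrassCurve K) :
    Set ((K →+* ℝ) → OnePoint (ℝ × ℝ)) :=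
  {f | ∀ σ, f σ = OnePoint.infty ∨
    ∃ x y : ℝ, f σ = OnePoint.some (x, y) ∧ (W.map σ).toAffine.Equation x y}

/-- The real point of the Weil restriction given by a point of `W` over `K`. -/
def toReal {K : Type} [Field K] {W : WeierstrassCurve K} :
    W.toAffine.Point → (K →+* ℝ) → OnePoint (ℝ × ℝ)
  | .zero, _ => OnePoint.infty
  | .some x y _, σ => OnePoint.some (σ x, σ y)

/-- The identity component of the real points. -/
def idComp {K : Type} [Field K] (W : WeierstrassCurve K) :
    Set ((K →+* ℝ) → OnePoint (ℝ × ℝ)) :=
  connectedComponentIn (realPts W) fun _ => OnePoint.infty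

/-- The closure of the multiples of `P` contains the identity component. -/
def DenseMult {K : Type} [Field K] [DecidableEq K] {W : WeierstrassCurve K}
    (P : W.toAffine.Point) : Prop :=
  idComp W ⊆ closure (Set.range fun n : ℤ => toReal (n • P))

/-- There is a homomorphism with finite kernel whose first coordinate is a rational function off
a finite set. Every isogeny is one. -/
def Isog (W W' : WeierstrassCurve ℂ) : Prop :=
  ∃ (φ : W.toAffine.Point →+ W'.toAffine.Point) (p q : ℂ[X][X]), Finite φ.ker ∧
    Set.Finite {P | ¬∃ x y h x' y' h', P = .some x y h ∧ φ P = .some x' y' h' ∧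
      q.evalEval x y ≠ 0 ∧ x' * q.evalEval x y = p.evalEval x y}

section family
variable {K : Type} [Field K]

def sz (z : K) : K := 2 * z / (1 + z ^ 2)

def rz (z : K) : K := 4 * z / (1 + 4 * z ^ 2)

def mu (g M : ℕ) (θ z : K) : K := (M + θ) * z / (4 * g)

def al (g M : ℕ) (θ z : K) : K :=
  (1 + mu g M θ z * (sz z + rz z) ^ 2) * (1 + mu g M θ z * (sz z - rz z) ^ 2)

/-- The curve of the family. -/
def fam (g M : ℕ) (θ z : K) : WeierstrassCurve K := leg (al g M θ z) (4 * mu g M θ z)

end family

/-- The field has degree `g` and is totally real, the curve is elliptic and its complex conjugates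
are pairwise not isogenous. -/
def Adm (g : ℕ) {K : Type} [Field K] [NumberField K] (W : WeierstrassCurve K) : Prop :=
  Module.finrank ℚ K = g ∧ NumberField.IsTotallyReal K ∧ W.IsElliptic ∧
    ∀ σ τ : K →+* ℂ, σ ≠ τ → ¬Isog (W.map σ) (W.map τ)

end Pool.Agent.P.MP_e5b57f_nt
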